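import Pool.Agent.Helper13.M.Defs
import Pool.Agent.SC.Final

/-!
# Project M, block K4M: compactness and the uniqueness of the fixed place, at an arbitrary level
-/

set_option autoImplicit false

namespace Pool.Agent.M

open VC IntermediateField Pool.Agent.SC Pool.Agent.L

/-- a number field is generated by finitely many elements -/
private theorem fg17 (k : Type) [Field k] [NumberField k] : ∃ S : Finset k, Subfield.closure (S : Set k) = ⊤ := by
  have hfd : Module.Finite ℚ k := inferInstance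
  obtain ⟨S, hS⟩ := Module.finite_def.1 hfd
  refine ⟨S, ?_⟩
  rw [eq_top_iff]
  intro x _
  have hx : x ∈ Submodule.span ℚ (S : Set k) := by
    rw [hS]
    trivial
  induction hx using Submodule.span_induction with
  | mem x hx => exact Subfield.subset_closure hx
  | zero => exact zero_mem _
  | add x y _ _ h1 h2 => exact add_mem (h1 trivial) (h2 trivial)
  | smul q x _ h1 =>
    rw [Algebra.smul_def, eq_ratCast]
    exact mul_mem (SubfieldClass.ratCast_mem _ q) (h1 trivial)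

/-- the ultrafilter takes only finitely many values -/
private theorem ev_const17 {ι α : Type} (f : Ultrafilter ι) (φ : ι → α) (s : Set α) (hs : s.Finite)
    (h : ∀ᶠ i in (f : Filter ι), φ i ∈ s) : ∃ a, ∀ᶠ i in (f : Filter ι), φ i = a := by
  have h1 : s ∈ f.map φ := h
  obtain ⟨a, -, ha⟩ := Ultrafilter.eq_pure_of_finite_mem hs h1
  refine ⟨a, ?_⟩
  have h2 : {a} ∈ f.map φ := by
    rw [ha]
    exact rfl
  exact h2

/-- the limit of partial valuation rings -/
private theorem limit17 {U : Type} [Field U] (f : Ultrafilter (Finset U)) (A : Finset U → Set U) (h0 : ∀ S, 0 ∈ A S)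
    (h1 : ∀ S, 1 ∈ A S) (hadd : ∀ S, ∀ x ∈ A S, ∀ y ∈ A S, x + y ∈ A S) (hmul : ∀ S, ∀ x ∈ A S, ∀ y ∈ A S, x * y ∈ A S)
    (hneg : ∀ S, ∀ x ∈ A S, -x ∈ A S) (hinv : ∀ x, ∀ᶠ S in (f : Filter (Finset U)), x ∈ A S ∨ x⁻¹ ∈ A S) :
    ∃ W : ValuationSubring U, ∀ x, x ∈ W ↔ ∀ᶠ S in (f : Filter (Finset U)), x ∈ A S := by
  refine ⟨{ carrier := {x | ∀ᶠ S in (f : Filter (Finset U)), x ∈ A S}
            mul_mem' := fun hx hy => (hx.and hy).mono fun S h => hmul S _ h.1 _ h.2
            one_mem' := Filter.Eventually.of_forall h1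
            add_mem' := fun hx hy => (hx.and hy).mono fun S h => hadd S _ h.1 _ h.2
            zero_mem' := Filter.Eventually.of_forall h0
            neg_mem' := fun hx => hx.mono fun S h => hneg S _ h
            mem_or_inv_mem' := fun x => Ultrafilter.eventually_or.1 (hinv x) }, fun x => Iff.rfl⟩

private theorem root17 {K0 E U : Type} [Field K0] [Field E] [Field U] [Algebra E U] [Algebra K0 U]
    (N : IntermediateField E U) (hKN : ∀ x : K0, algebraMap K0 U x ∈ N) (b : N →+* N)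
    (hb : ∀ x : K0, b ⟨algebraMap K0 U x, hKN x⟩ = ⟨algebraMap K0 U x, hKN x⟩) (p : Polynomial K0) (z : N)
    (hz : Polynomial.aeval (z : U) p = 0) : Polynomial.aeval ((b z : N) : U) p = 0 := by
  let aKN : Algebra K0 N := (RingHom.codRestrict (algebraMap K0 U) N hKN).toAlgebra
  let i1 : N →ₐ[K0] U := { N.val with commutes' := fun x => rfl }
  let b1 : N →ₐ[K0] N := { b with commutes' := fun x => hb x }
  have h2 : Polynomial.aeval ((i1.comp b1) z) p = (i1.comp b1) (Polynomial.aeval z p) := Polynomial.aeval_algHom_apply _ _ _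
  have h3 : Polynomial.aeval (i1 z) p = i1 (Polynomial.aeval z p) := Polynomial.aeval_algHom_apply _ _ _
  have h4 : Polynomial.aeval z p = 0 := by
    refine RingHom.injective (i1 : N →+* U) ?_
    have h5 : i1 (Polynomial.aeval z p) = 0 := by
      rw [← h3]
      exact hz
    rw [map_zero]
    exact h5
  rw [h4, map_zero] at h2
  exact h2

/-- `r` is not a unit at a place fixed by an involution which moves `r` to `-r` -/
private theorem not_unit17 {E : Type} [Field E] [IsAlgClosed E] [CharZero E] {N : Type} [Field N] [Algebra E N]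
    (hN : IsFunctionField E N) (b : N ≃ₐ[E] N) (hb2 : b ^ 2 = 1) (r : N) (hr : b r = -r) (Q : Place E N)
    (hQ : ∀ x ∈ Q.ring, b x ∈ Q.ring) (h1 : r ∈ Q.ring) (h2 : r⁻¹ ∈ Q.ring) : r = 0 := by
  have hbb : ∀ x, b (b x) = x := by
    intro x
    have h3 := congrArg (fun φ : N ≃ₐ[E] N => φ x) hb2
    rw [pow_two] at h3
    exact h3
  obtain ⟨c, hc⟩ := FF.exists_residue hN Q h1
  have hnon : ∀ x ∈ Q.ring.nonunits, b x ∈ Q.ring.nonunits := by
    intro x hx
    rw [ValuationSubring.mem_nonunits_iff_or] at hx ⊢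
    rcases hx with rfl | hx
    · exact Or.inl (map_zero b)
    · right
      intro h
      rw [← map_inv₀] at h
      have h4 := hQ _ h
      rw [hbb] at h4
      exact hx h4
  have h3 := hnon _ hc
  rw [map_sub, hr, AlgEquiv.commutes] at h3
  have h4 : (r - algebraMap E N c) + (-r - algebraMap E N c) ∈ Q.ring.nonunits := by
    have hv1 := (ValuationSubring.mem_nonunits_iff Q.ring).1 hc
    have hv2 := (ValuationSubring.mem_nonunits_iff Q.ring).1 h3
    exact (ValuationSubring.mem_nonunits_iff Q.ring).2 ((Valuation.map_add _ _ _).trans_lt (max_lt hv1 hv2))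
  have h5 : (r - algebraMap E N c) + (-r - algebraMap E N c) = algebraMap E N (-2 * c) := by
    rw [map_mul, map_neg, map_ofNat]
    ring
  rw [h5] at h4
  have hc0 : c = 0 := by
    by_contra hc0
    have h6 : (-2 * c) ≠ 0 := mul_ne_zero (by norm_num) hc0
    rcases (ValuationSubring.mem_nonunits_iff_or _).1 h4 with h7 | h7
    · exact h6 ((map_eq_zero _).1 h7)
    · exact h7 (by rw [← map_inv₀]; exact Q.algebraMap_mem _)
  rw [hc0, map_zero, sub_zero] at hc
  rcases (ValuationSubring.mem_nonunits_iff_or _).1 hc with h7 | h7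
  · exact h7
  · exact absurd h2 h7

theorem k4M : StmtK4M := by
  intro k K0 E U _ _ _ _ _ _ _ _ _ _ _ _ h r G N0 hMN0 hff0
  classical
  have hcE : CharZero E := charZero_of_injective_algebraMap (algebraMap k E).injective
  have hcU : CharZero U := charZero_of_injective_algebraMap (algebraMap k U).injective
  have hclE : IsAlgClosed E := G.clE
  have hclos : IsAlgClosure k E := ⟨G.clE, G.algE⟩
  have hn : Normal K0 U := G.normal
  have hint : ∀ z : U, IsIntegral K0 z := fun z => hn.isIntegral z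
  set M : IntermediateField E U := MM E K0 r with hM
  have hKM : ∀ x : K0, algebraMap K0 U x ∈ M := fun x => IntermediateField.subset_adjoin _ _ (Or.inl ⟨x, rfl⟩)
  have hrM : r ∈ M := IntermediateField.subset_adjoin _ _ (Or.inr rfl)
  have hKL : ∀ x : K0, algebraMap K0 U x ∈ L0 E K0 (U := U) := fun x => IntermediateField.subset_adjoin _ _ ⟨x, rfl⟩
  have hr0 : r ≠ 0 := by
    rintro rfl
    exact G.rnot (zero_mem _)
  have huf : UniqueFixed M := uniqueFixed (F := k) (fg17 k) M G.cover G.nonrat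
  by_contra hcon
  have hcx : ∀ Z : Finset U, ∃ (N : IntermediateField E U) (b : N ≃ₐ[E] N) (Q Q' : Place E N), N0 ≤ N ∧
      (∀ z ∈ Z, z ∈ N) ∧ IsFunctionField E N ∧ (∀ x : N, (x : U) ∈ L0 E K0 (U := U) → b x = x) ∧ b ^ 2 = 1 ∧
      (∀ x : N, (x : U) = r → b x = -x) ∧ (∀ x ∈ Q.ring, b x ∈ Q.ring) ∧ (∀ x ∈ Q'.ring, b x ∈ Q'.ring) ∧
      ¬ SamePlace N0 N Q Q' := by
    intro Z
    by_contra h1
    exact hcon ⟨Z, fun N h2 h3 h4 b h5 h6 h7 Q Q' h8 h9 => by_contra fun h10 =>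
      h1 ⟨N, b, Q, Q', h2, h3, h4, h5, h6, h7, h8, h9, h10⟩⟩
  choose N b Q Q' hNN hZN hff hbL hb2 hbr hQ hQ' hne using hcx
  have hMN : ∀ Z, M ≤ N Z := fun Z => hMN0.trans (hNN Z)
  let f : Ultrafilter (Finset U) := Ultrafilter.of Filter.atTop
  have hev : ∀ x : U, ∀ᶠ Z in (f : Filter (Finset U)), x ∈ N Z := by
    intro x
    have h2 : ∀ᶠ Z in (Filter.atTop : Filter (Finset U)), x ∈ N Z := by
      filter_upwards [Filter.eventually_ge_atTop {x}] with Z hZ
      exact hZN Z x (hZ (Finset.mem_singleton_self x))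
    exact Ultrafilter.of_le _ h2
  have hbb : ∀ Z (x : N Z), b Z (b Z x) = x := by
    intro Z x
    have h3 := congrArg (fun φ : N Z ≃ₐ[E] N Z => φ x) (hb2 Z)
    rw [pow_two] at h3
    exact h3
  -- the limit automorphism
  have hlim : ∀ u : U, ∃ y : U, ∀ᶠ Z in (f : Filter (Finset U)), ∃ hu : u ∈ N Z, ((b Z ⟨u, hu⟩ : N Z) : U) = y := by
    intro u
    let β : Finset U → U := fun Z => if hu : u ∈ N Z then ((b Z ⟨u, hu⟩ : N Z) : U) else u
    have hβ : ∀ᶠ Z in (f : Filter (Finset U)), β Z ∈ {y | y ∈ (minpoly K0 u).rootSet U} := by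
      refine (hev u).mono fun Z hZ => ?_
      have h1 : β Z = ((b Z ⟨u, hZ⟩ : N Z) : U) := dif_pos hZ
      show β Z ∈ (minpoly K0 u).rootSet U
      rw [Polynomial.mem_rootSet, h1]
      refine ⟨minpoly.ne_zero (hint u), ?_⟩
      exact root17 (N Z) (fun x => hMN Z (hKM x)) (b Z : N Z →+* N Z) (fun x => hbL Z _ (hKL x)) _ _ (minpoly.aeval _ _)
    obtain ⟨y, hy⟩ := ev_const17 f β _ (Polynomial.rootSet_finite _ _) hβ
    refine ⟨y, ((hev u).and hy).mono fun Z hZ => ⟨hZ.1, ?_⟩⟩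
    have h1 : β Z = ((b Z ⟨u, hZ.1⟩ : N Z) : U) := dif_pos hZ.1
    rw [← h1]
    exact hZ.2
  choose g0 hg0 using hlim
  have hadd : ∀ u v, g0 (u + v) = g0 u + g0 v := by
    intro u v
    obtain ⟨Z, ⟨h1, e1⟩, ⟨h2, e2⟩, ⟨h3, e3⟩⟩ := ((hg0 u).and ((hg0 v).and (hg0 (u + v)))).exists
    rw [← e1, ← e2, ← e3]
    have h4 : (⟨u + v, h3⟩ : N Z) = ⟨u, h1⟩ + ⟨v, h2⟩ := rfl
    rw [h4, map_add]
    rfl
  have hmul : ∀ u v, g0 (u * v) = g0 u * g0 v := by
    intro u v
    obtain ⟨Z, ⟨h1, e1⟩, ⟨h2, e2⟩, ⟨h3, e3⟩⟩ := ((hg0 u).and ((hg0 v).and (hg0 (u * v)))).exists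
    rw [← e1, ← e2, ← e3]
    have h4 : (⟨u * v, h3⟩ : N Z) = ⟨u, h1⟩ * ⟨v, h2⟩ := rfl
    rw [h4, map_mul]
    rfl
  have hcon' : ∀ c : E, g0 (algebraMap E U c) = algebraMap E U c := by
    intro c
    obtain ⟨Z, ⟨h1, e1⟩⟩ := (hg0 (algebraMap E U c)).exists
    rw [← e1]
    exact congrArg Subtype.val ((b Z).commutes c)
  have hgg : ∀ u, g0 (g0 u) = u := by
    intro u
    obtain ⟨Z, ⟨h1, e1⟩, ⟨h2, e2⟩⟩ := ((hg0 u).and (hg0 (g0 u))).exists
    rw [← e2]
    have h4 : (⟨g0 u, h2⟩ : N Z) = b Z ⟨u, h1⟩ := Subtype.ext e1.symm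
    rw [h4, hbb]
  have hgr : g0 r = -r := by
    obtain ⟨Z, ⟨h1, e1⟩⟩ := (hg0 r).exists
    rw [← e1, hbr Z ⟨r, h1⟩ rfl]
    rfl
  have hgK : ∀ x : K0, g0 (algebraMap K0 U x) = algebraMap K0 U x := by
    intro x
    obtain ⟨Z, ⟨h1, e1⟩⟩ := (hg0 (algebraMap K0 U x)).exists
    rw [← e1, hbL Z ⟨_, h1⟩ (hKL x)]
  let g : U ≃ₐ[E] U :=
    { toFun := g0
      invFun := g0
      left_inv := hgg
      right_inv := hgg
      map_mul' := hmul
      map_add' := hadd
      commutes' := hcon' }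
  have hg_ne : g ≠ 1 := by
    intro h1
    have h2 : g0 r = r := congrArg (fun φ : U ≃ₐ[E] U => φ r) h1
    rw [hgr] at h2
    have h3 : r = 0 := by
      have h4 : (2 : U) * r = 0 := by linear_combination -h2
      exact (mul_eq_zero.1 h4).resolve_left two_ne_zero
    exact hr0 h3
  have hord : orderOf g = 2 := by
    have := Fact.mk Nat.prime_two
    refine orderOf_eq_prime ?_ hg_ne
    rw [pow_two]
    exact AlgEquiv.ext hgg
  have hgM1 : ∀ x ∈ M, g x ∈ M := by
    intro x hx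
    rw [hM] at hx
    unfold MM at hx
    induction hx using IntermediateField.adjoin_induction with
    | mem y hy =>
      rcases hy with ⟨c, rfl⟩ | hy
      · have h1 : g (algebraMap K0 U c) = algebraMap K0 U c := hgK c
        rw [h1]
        exact hKM c
      · rw [Set.mem_singleton_iff.1 hy]
        have h1 : g r = -r := hgr
        rw [h1]
        exact neg_mem hrM
    | algebraMap e =>
      rw [g.commutes]
      exact M.algebraMap_mem e
    | add a c _ _ h1 h2 =>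
      rw [map_add]
      exact add_mem h1 h2
    | inv a _ h1 =>
      rw [map_inv₀]
      exact inv_mem h1
    | mul a c _ _ h1 h2 =>
      rw [map_mul]
      exact mul_mem h1 h2
  have hgM : ∀ x, x ∈ M ↔ g x ∈ M := by
    intro x
    refine ⟨hgM1 x, fun h1 => ?_⟩
    have h2 := hgM1 _ h1
    have h3 : g (g x) = x := hgg x
    rwa [h3] at h2
  -- the limit valuation rings
  have hW : ∀ R : ∀ Z, Place E (N Z), (∀ Z, ∀ x ∈ (R Z).ring, b Z x ∈ (R Z).ring) → ∃ W : ValuationSubring U,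
      (∀ x, x ∈ W ↔ ∀ᶠ Z in (f : Filter (Finset U)), ∃ hx : x ∈ N Z, (⟨x, hx⟩ : N Z) ∈ (R Z).ring) ∧
      (∀ c : E, algebraMap E U c ∈ W) ∧ W ≠ ⊤ ∧ ∀ z, g z ∈ W ↔ z ∈ W := by
    intro R hR
    obtain ⟨W, hW⟩ := limit17 f (fun Z => {x | ∃ hx : x ∈ N Z, (⟨x, hx⟩ : N Z) ∈ (R Z).ring})
      (fun Z => ⟨zero_mem _, zero_mem _⟩) (fun Z => ⟨one_mem _, one_mem _⟩)
      (fun Z x hx y hy => by
        obtain ⟨h1, h2⟩ := hx
        obtain ⟨h3, h4⟩ := hy
        exact ⟨add_mem h1 h3, (R Z).ring.add_mem _ _ h2 h4⟩)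
      (fun Z x hx y hy => by
        obtain ⟨h1, h2⟩ := hx
        obtain ⟨h3, h4⟩ := hy
        exact ⟨mul_mem h1 h3, (R Z).ring.mul_mem _ _ h2 h4⟩)
      (fun Z x hx => by
        obtain ⟨h1, h2⟩ := hx
        exact ⟨neg_mem h1, (R Z).ring.neg_mem _ h2⟩)
      (fun x => (hev x).mono fun Z hZ => by
        rcases (R Z).ring.mem_or_inv_mem (⟨x, hZ⟩ : N Z) with h1 | h1
        · exact Or.inl ⟨hZ, h1⟩
        · exact Or.inr ⟨inv_mem hZ, h1⟩)
    have hWE : ∀ c : E, algebraMap E U c ∈ W := fun c =>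
      (hW _).2 (Filter.Eventually.of_forall fun Z => ⟨(N Z).algebraMap_mem c, (R Z).algebraMap_mem c⟩)
    have hWg : ∀ z ∈ W, g z ∈ W := by
      intro z hz
      have h1 := (hW z).1 hz
      refine (hW _).2 ((h1.and (hg0 z)).mono fun Z hZ => ?_)
      obtain ⟨⟨h2, h3⟩, ⟨h4, h5⟩⟩ := hZ
      have h6 : ((b Z ⟨z, h2⟩ : N Z) : U) = g z := h5
      have h7 := hR Z _ h3
      have h8 : g z ∈ N Z := by
        rw [← h6]
        exact (b Z ⟨z, h2⟩).2
      refine ⟨h8, ?_⟩
      have h9 : (⟨g z, h8⟩ : N Z) = b Z ⟨z, h2⟩ := Subtype.ext h6.symm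
      rw [h9]
      exact h7
    refine ⟨W, hW, hWE, ?_, fun z => ⟨fun hz => ?_, hWg z⟩⟩
    · intro htop
      have h1 : r ∈ W := by
        rw [htop]
        trivial
      have h2 : r⁻¹ ∈ W := by
        rw [htop]
        trivial
      obtain ⟨Z, ⟨h3, h4⟩, ⟨h5, h6⟩⟩ := (((hW _).1 h1).and ((hW _).1 h2)).exists
      have h7 := not_unit17 (hff Z) (b Z) (hb2 Z) ⟨r, h3⟩ (hbr Z _ rfl) (R Z) (hR Z) h4 h6
      exact hr0 (congrArg Subtype.val h7)
    · have h1 := hWg _ hz
      have h2 : g (g z) = z := hgg z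
      rwa [h2] at h1
  obtain ⟨W, hW1, hW2, hW3, hW4⟩ := hW Q hQ
  obtain ⟨W', hW1', hW2', hW3', hW4'⟩ := hW Q' hQ'
  have hWW : W = W' := by
    refine huf g (by rw [hord]; exact Nat.prime_two) hgM ⟨r, hrM, ?_⟩ W W' hW2 hW3 hW4 hW2' hW3' hW4'
    intro h1
    have h2 : g0 r = r := h1
    rw [hgr] at h2
    have h4 : (2 : U) * r = 0 := by linear_combination -h2
    exact hr0 ((mul_eq_zero.1 h4).resolve_left two_ne_zero)
  -- the places of `N0`
  have hffM : IsFunctionField E N0 := hff0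
  have hrM0 : r ∈ N0 := hMN0 hrM
  have hplace : ∀ R : ∀ Z, Place E (N Z), (∀ Z, ∀ x ∈ (R Z).ring, b Z x ∈ (R Z).ring) → ∃ P : Place E N0,
      ∀ᶠ Z in (f : Filter (Finset U)), Place.comap hffM (hff Z) (IntermediateField.inclusion (hNN Z)) (R Z) = P := by
    intro R hR
    refine ev_const17 f _ _ (FF.finite_support_ord hffM (f := (⟨r, hrM0⟩ : N0)) fun h1 => hr0 (congrArg Subtype.val h1))
      (Filter.Eventually.of_forall fun Z => ?_)
    show ord _ _ ≠ 0
    intro h1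
    set P : Place E N0 := Place.comap hffM (hff Z) (IntermediateField.inclusion (hNN Z)) (R Z) with hP
    have hrz : (⟨r, hrM0⟩ : N0) ≠ 0 := fun h2 => hr0 (congrArg Subtype.val h2)
    have h2 : (⟨r, hrM0⟩ : N0) ∈ P.ring := (FF.ord_nonneg_iff hffM P hrz).1 h1.ge
    have h3 : (⟨r, hrM0⟩ : N0)⁻¹ ∈ P.ring := by
      refine (FF.ord_nonneg_iff hffM P (inv_ne_zero hrz)).1 ?_
      rw [FF.ord_inv hffM P hrz, h1, neg_zero]
    have h4 := not_unit17 (hff Z) (b Z) (hb2 Z) ⟨r, hNN Z hrM0⟩ (hbr Z _ rfl) (R Z) (hR Z) h2 h3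
    exact hr0 (congrArg Subtype.val h4)
  obtain ⟨P, hP⟩ := hplace Q hQ
  obtain ⟨P', hP'⟩ := hplace Q' hQ'
  have hkey : ∀ (R : ∀ Z, Place E (N Z)) (P : Place E N0) (W : ValuationSubring U),
      (∀ x, x ∈ W ↔ ∀ᶠ Z in (f : Filter (Finset U)), ∃ hx : x ∈ N Z, (⟨x, hx⟩ : N Z) ∈ (R Z).ring) →
      (∀ᶠ Z in (f : Filter (Finset U)), Place.comap hffM (hff Z) (IntermediateField.inclusion (hNN Z)) (R Z) = P) →
      ∀ x : N0, x ∈ P.ring ↔ (x : U) ∈ W := by
    intro R P W hW hP x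
    rw [hW]
    constructor
    · intro hx
      refine hP.mono fun Z hZ => ⟨hNN Z x.2, ?_⟩
      rw [← hZ] at hx
      exact hx
    · intro hx
      obtain ⟨Z, ⟨h1, h2⟩, h3⟩ := (hx.and hP).exists
      rw [← h3]
      exact h2
  have hPP : P = P' := by
    refine Place.ext (ValuationSubring.ext _ _ fun x => ?_)
    rw [hkey Q P W hW1 hP x, hkey Q' P' W' hW1' hP' x, hWW]
  obtain ⟨Z, h1, h2⟩ := (hP.and hP').exists
  refine hne Z fun x hx => ?_
  have h3 : Place.comap hffM (hff Z) (IntermediateField.inclusion (hNN Z)) (Q Z) =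
      Place.comap hffM (hff Z) (IntermediateField.inclusion (hNN Z)) (Q' Z) := by
    rw [h1, h2, hPP]
  have h4 : (⟨(x : U), hx⟩ : N0) ∈ (Place.comap hffM (hff Z) (IntermediateField.inclusion (hNN Z)) (Q Z)).ring ↔
      (⟨(x : U), hx⟩ : N0) ∈ (Place.comap hffM (hff Z) (IntermediateField.inclusion (hNN Z)) (Q' Z)).ring := by rw [h3]
  exact h4

end Pool.Agent.M
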